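import Pool.Agent.MP_13e7a1_an.H82.Tools

/-!
Lower half of the convergence theorem.
-/

open scoped ContDiff Topology Matrix
open Set Metric MeasureTheory Filter

noncomputable section

namespace Pool.Agent.MP_13e7a1_an.H65

open Pool.Agent.MP_13e7a1_an.H82

/-- Cauchy-Schwarz with given bounds. -/
theorem cs_bd {D : Set E} (hD : IsCompact D) {h u v : E → ℝ} (hh : Continuous h)
    (hu : Continuous u) (hv : Continuous v) {C α β : ℝ} (hC : 0 ≤ C) (hα : 0 ≤ α) (hβ : 0 ≤ β)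
    (hb : ∀ x ∈ D, |h x| ≤ C * (u x * v x)) (h1 : ∫ x in D, u x ^ 2 ≤ α ^ 2)
    (h2 : ∫ x in D, v x ^ 2 ≤ β ^ 2) : |∫ x in D, h x| ≤ C * (α * β) := by
  have e1 : |∫ x in D, h x| ≤ ∫ x in D, C * (u x * v x) :=
    abs_int_le hD hh (continuous_const.fun_mul (hu.mul hv)) hb
  rw [integral_const_mul] at e1
  have e2 := int_cs hD hu hv
  have e3 : √(∫ x in D, u x ^ 2) ≤ α := Real.sqrt_le_iff.2 ⟨hα, h1⟩
  have e4 : √(∫ x in D, v x ^ 2) ≤ β := Real.sqrt_le_iff.2 ⟨hβ, h2⟩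
  have e5 : √(∫ x in D, u x ^ 2) * √(∫ x in D, v x ^ 2) ≤ α * β :=
    mul_le_mul e3 e4 (Real.sqrt_nonneg _) hα
  exact e1.trans (mul_le_mul_of_nonneg_left (e2.trans e5) hC)

/-- The trace of `T h` against a small function. -/
theorem lap_bd (hI : SIntB) (c : Ctx) {D : Set E} (hD : IsCompact D) :
    ∃ C : ℝ, 0 ≤ C ∧ ∀ G h : E → ℝ, ContDiff ℝ ∞ G → ContDiff ℝ ∞ h →
      (∀ x, x ∉ D → G x = 0) → ∀ δ β : ℝ, 0 ≤ δ → 0 ≤ β →
      ∫ x in D, ‖grad G x‖ ^ 2 ≤ δ ^ 2 → ∫ x in D, G x ^ 2 ≤ δ ^ 2 →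
      ∫ x in D, ‖grad h x‖ ^ 2 ≤ β ^ 2 →
      |∫ x in D, G x * c.w (c.T h x) (c.Om x)| ≤ C * (δ * β) := by
  obtain ⟨Y, hY, hlap⟩ := hI.lap c
  obtain ⟨C1, hC1, h1⟩ := c.ws_bd hD c.continuous_Om
  obtain ⟨C2, hC2, h2⟩ := exists_bound hD hY
  refine ⟨C1 + 4 * C2, by positivity, fun G h hG hh h0 δ β hδ hβ g1 g2 g3 => ?_⟩
  have cG := continuous_grad hG
  have ch := continuous_grad hh
  rw [hlap D hD G h hG hh h0]
  have e1 : |∫ x in D, c.w (c.s x (grad G x) (grad h x)) (c.Om x)| ≤ C1 * (δ * β) :=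
    cs_bd hD (c.continuous_w (c.continuous_s cG ch) c.continuous_Om) cG.norm ch.norm hC1 hδ hβ
      (fun x hx => h1 x hx _ _) g1 g3
  have e2 : |∫ x in D, G x * (Y x ⬝ᵥ grad h x)| ≤ (4 * C2) * (δ * β) := by
    refine cs_bd hD (u := fun x => |G x|) (v := fun x => ‖grad h x‖)
      (hG.continuous.fun_mul (hY.dotProduct ch)) hG.continuous.abs ch.norm (by positivity) hδ hβ
      (fun x hx => ?_) (by simpa only [sq_abs] using g2) g3
    rw [abs_mul]
    have a1 := abs_dot_le (Y x) (grad h x)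
    have a2 : ‖Y x‖ * ‖grad h x‖ ≤ C2 * ‖grad h x‖ :=
      mul_le_mul_of_nonneg_right (h2 x hx) (norm_nonneg _)
    have a3 : |Y x ⬝ᵥ grad h x| ≤ 4 * C2 * ‖grad h x‖ := by linarith
    calc |G x| * |Y x ⬝ᵥ grad h x| ≤ |G x| * (4 * C2 * ‖grad h x‖) :=
          mul_le_mul_of_nonneg_left a3 (abs_nonneg _)
      _ = 4 * C2 * (|G x| * ‖grad h x‖) := by ring
  have e3 := abs_add_le (-(∫ x in D, c.w (c.s x (grad G x) (grad h x)) (c.Om x)))
    (∫ x in D, G x * (Y x ⬝ᵥ grad h x))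
  rw [abs_neg] at e3
  linarith

/-- The main term after the exchange. -/
theorem main_bd (hA : SLinA) (hI : SIntB) (c : Ctx) {D : Set E} (hD : IsCompact D) {K : ℝ}
    (hK : 0 ≤ K) :
    ∃ C : ℝ, 0 ≤ C ∧ ∀ F G S : E → ℝ, ContDiff ℝ ∞ F → ContDiff ℝ ∞ G → ContDiff ℝ ∞ S →
      (∀ x, x ∉ D → G x = 0) → (∀ x ∈ D, 0 ≤ G x) →
      (∀ x ∈ D, c.Pos x (c.T F x + K • c.Om x)) → (∀ x ∈ D, c.Pos x (c.T S x + K • c.Om x)) →
      ∀ δ β : ℝ, 0 ≤ δ → 1 ≤ β →
      ∫ x in D, ‖grad G x‖ ^ 2 ≤ δ ^ 2 → ∫ x in D, G x ^ 2 ≤ δ ^ 2 →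
      ∫ x in D, ‖grad F x‖ ^ 2 ≤ β ^ 2 → ∫ x in D, ‖grad S x‖ ^ 2 ≤ β ^ 2 →
      -(C * (δ * β)) ≤ c.N D G F S := by
  obtain ⟨C1, hC1, h1⟩ := lap_bd hI c hD
  have cOO : Continuous fun x => c.w (c.Om x) (c.Om x) :=
    c.continuous_w c.continuous_Om c.continuous_Om
  set V2 : ℝ := √(∫ x in D, c.w (c.Om x) (c.Om x) ^ 2) with hV2
  have hV : 0 ≤ V2 := Real.sqrt_nonneg _
  refine ⟨2 * K * C1 + K ^ 2 * V2, by positivity,
    fun F G S hF hG hS h0 hG0 pF pS δ β hδ hβ g1 g2 g3 g4 => ?_⟩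
  have hβ0 : 0 ≤ β := by linarith
  have cF : Continuous fun x => G x * c.w (c.T F x) (c.Om x) :=
    hG.continuous.fun_mul (c.continuous_w (c.continuous_T hF) c.continuous_Om)
  have cS : Continuous fun x => G x * c.w (c.T S x) (c.Om x) :=
    hG.continuous.fun_mul (c.continuous_w (c.continuous_T hS) c.continuous_Om)
  have cO : Continuous fun x => G x * c.w (c.Om x) (c.Om x) := hG.continuous.fun_mul cOO
  have e1 := h1 G F hG hF h0 δ β hδ hβ0 g1 g2 g3
  have e2 := h1 G S hG hS h0 δ β hδ hβ0 g1 g2 g4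
  have e3 : |∫ x in D, G x * c.w (c.Om x) (c.Om x)| ≤ 1 * (δ * V2) := by
    refine cs_bd hD (u := fun x => |G x|) (v := fun x => |c.w (c.Om x) (c.Om x)|) cO
      hG.continuous.abs cOO.abs zero_le_one hδ hV (fun x _ => by rw [abs_mul, one_mul])
      (by simpa only [sq_abs] using g2) ?_
    simp only [sq_abs]
    rw [hV2, Real.sq_sqrt (int_nonneg hD fun x _ => sq_nonneg _)]
  have e4 : ∫ x in D, (-K * (G x * c.w (c.T F x) (c.Om x)) + -K * (G x * c.w (c.T S x) (c.Om x))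
      + -K ^ 2 * (G x * c.w (c.Om x) (c.Om x))) ≤ c.N D G F S := by
    refine int_mono hD (((continuous_const.fun_mul cF).fun_add (continuous_const.fun_mul cS)).add
      (continuous_const.fun_mul cO)) (c.continuous_NI hG.continuous hF hS) fun x hx => ?_
    have a1 := c.w_pos hA (pF x hx) (pS x hx)
    rw [c.w_add_left, c.w_add_right, c.w_add_right, c.w_smul_right, c.w_smul_left, c.w_smul_left,
      c.w_smul_right, c.w_comm (c.Om x) (c.T S x)] at a1
    have a2 := mul_nonneg (hG0 x hx) a1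
    linarith
  rw [int_add hD ((continuous_const.fun_mul cF).fun_add (continuous_const.fun_mul cS))
    (continuous_const.fun_mul cO), int_add hD (continuous_const.fun_mul cF) (continuous_const.fun_mul cS),
    integral_const_mul, integral_const_mul, integral_const_mul] at e4
  have b1 := mul_le_mul_of_nonneg_left (le_abs_self _ |>.trans e1) hK
  have b2 := mul_le_mul_of_nonneg_left (le_abs_self _ |>.trans e2) hK
  have b3 := mul_le_mul_of_nonneg_left (le_abs_self _ |>.trans e3) (sq_nonneg K)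
  have b4 : K ^ 2 * V2 * δ * 1 ≤ K ^ 2 * V2 * δ * β :=
    mul_le_mul_of_nonneg_left hβ (by positivity)
  linarith

/-- The term with the anti-invariant form. -/
theorem anti_bd (hA : SLinA) (c : Ctx) {D : Set E} (hD : IsCompact D) :
    ∃ C : ℝ, 0 ≤ C ∧ ∀ p q q' s r : E → V, Continuous p → Continuous q → Continuous q' →
      Continuous s → Continuous r → ∀ t X γ L δ β : ℝ, 0 < t → 0 ≤ L → 0 ≤ δ → 0 ≤ β →
      ∫ x in D, c.w (c.al x (p x) (q x)) (c.al x (p x) (q x)) ≤ X →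
      ∫ x in D, c.w (c.al x (p x) (q' x)) (c.al x (p x) (q' x)) ≤ X →
      ∫ x in D, ‖s x - r x‖ ^ 2 ≤ γ → (∀ x ∈ D, ‖r x‖ ≤ L) →
      ∫ x in D, ‖q x - q' x‖ ^ 2 ≤ δ ^ 2 → ∫ x in D, ‖p x‖ ^ 2 ≤ β ^ 2 →
      ∫ x in D, c.w (c.al x (p x) (q x - q' x)) (c.Nu x (s x)) ≤
        t * X + C * γ / t + C * L * (δ * β) := by
  obtain ⟨C1, hC1, h1⟩ := c.n_bd hD
  obtain ⟨C2, hC2, h2⟩ := c.walNu_bd hD
  refine ⟨C1 + C2, by positivity,
    fun p q q' s r hp hq hq' hs hr t X γ L δ β ht hL hδ hβ g1 g2 g3 g4 g5 g6 => ?_⟩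
  have c1 : Continuous fun x => c.w (c.al x (p x) (q x)) (c.al x (p x) (q x)) :=
    c.continuous_w (c.continuous_al hp hq) (c.continuous_al hp hq)
  have c2 : Continuous fun x => c.w (c.al x (p x) (q' x)) (c.al x (p x) (q' x)) :=
    c.continuous_w (c.continuous_al hp hq') (c.continuous_al hp hq')
  have c3 : Continuous fun x => ‖s x - r x‖ ^ 2 := (hs.sub hr).norm.pow 2
  have c4 : Continuous fun x => c.w (c.al x (p x) (q x - q' x)) (c.Nu x (r x)) :=
    c.continuous_w (c.continuous_al hp (hq.sub hq')) (c.continuous_Nu hr)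
  have e1 : |∫ x in D, c.w (c.al x (p x) (q x - q' x)) (c.Nu x (r x))| ≤ (C2 * L) * (δ * β) := by
    refine cs_bd hD (u := fun x => ‖q x - q' x‖) (v := fun x => ‖p x‖) c4 (hq.sub hq').norm
      hp.norm (by positivity) hδ hβ (fun x hx => (h2 x hx _ _ _).trans ?_) g5 g6
    have a1 : ‖p x‖ * ‖q x - q' x‖ * ‖r x‖ ≤ ‖p x‖ * ‖q x - q' x‖ * L :=
      mul_le_mul_of_nonneg_left (g4 x hx) (by positivity)
    calc C2 * (‖p x‖ * ‖q x - q' x‖ * ‖r x‖) ≤ C2 * (‖p x‖ * ‖q x - q' x‖ * L) :=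
          mul_le_mul_of_nonneg_left a1 hC2
      _ = C2 * L * (‖q x - q' x‖ * ‖p x‖) := by ring
  have e2 : ∫ x in D, c.w (c.al x (p x) (q x - q' x)) (c.Nu x (s x)) ≤
      ∫ x in D, (t / 2 * c.w (c.al x (p x) (q x)) (c.al x (p x) (q x))
        + t / 2 * c.w (c.al x (p x) (q' x)) (c.al x (p x) (q' x))
        + C1 / t * ‖s x - r x‖ ^ 2 + c.w (c.al x (p x) (q x - q' x)) (c.Nu x (r x))) := by
    refine int_mono hD (c.continuous_w (c.continuous_al hp (hq.sub hq')) (c.continuous_Nu hs))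
      ((((continuous_const.fun_mul c1).fun_add (continuous_const.fun_mul c2)).add
        (continuous_const.fun_mul c3)).add c4) fun x hx => ?_
    have a1 := c.anti_cs hA (c.al_anti x (p x) (q x)) (c.Nu_anti x (s x - r x)) ht
    have a2 := c.anti_cs hA (c.al_anti x (p x) (q' x)) (c.Nu_anti x (s x - r x)) ht
    have a3 : c.w (c.Nu x (s x - r x)) (c.Nu x (s x - r x)) ≤ C1 * ‖s x - r x‖ ^ 2 := by
      have := (le_abs_self _).trans (h1 x hx (s x - r x) (s x - r x))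
      rw [sq]
      exact this
    have a4 : 1 / (2 * t) * c.w (c.Nu x (s x - r x)) (c.Nu x (s x - r x)) ≤
        1 / (2 * t) * (C1 * ‖s x - r x‖ ^ 2) := mul_le_mul_of_nonneg_left a3 (by positivity)
    have a5 : 1 / (2 * t) * (C1 * ‖s x - r x‖ ^ 2) = C1 / t * ‖s x - r x‖ ^ 2 / 2 := by
      field_simp
    have a6 : c.w (c.al x (p x) (q x - q' x)) (c.Nu x (s x)) =
        c.w (c.al x (p x) (q x)) (c.Nu x (s x - r x))
          - c.w (c.al x (p x) (q' x)) (c.Nu x (s x - r x))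
          + c.w (c.al x (p x) (q x - q' x)) (c.Nu x (r x)) := by
      rw [← c.w_sub_left, ← c.al_sub_right, c.Nu_sub, c.w_sub_right]
      ring
    have a7 := le_abs_self (c.w (c.al x (p x) (q x)) (c.Nu x (s x - r x)))
    have a8 := neg_abs_le (c.w (c.al x (p x) (q' x)) (c.Nu x (s x - r x)))
    linarith
  rw [int_add hD (((continuous_const.fun_mul c1).fun_add (continuous_const.fun_mul c2)).fun_add
    (continuous_const.fun_mul c3)) c4, int_add hD ((continuous_const.fun_mul c1).fun_add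
    (continuous_const.fun_mul c2)) (continuous_const.fun_mul c3), int_add hD (continuous_const.fun_mul c1)
    (continuous_const.fun_mul c2), integral_const_mul, integral_const_mul, integral_const_mul] at e2
  have hγ : 0 ≤ γ := (int_nonneg hD fun x _ => sq_nonneg _).trans g3
  have b1 := mul_le_mul_of_nonneg_left g1 (by positivity : 0 ≤ t / 2)
  have b2 := mul_le_mul_of_nonneg_left g2 (by positivity : 0 ≤ t / 2)
  have b3 := mul_le_mul_of_nonneg_left g3 (by positivity : 0 ≤ C1 / t)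
  have b4 := (le_abs_self _).trans e1
  have b5 : C1 / t * γ ≤ (C1 + C2) * γ / t := by
    have : (C1 + C2) * γ / t = C1 / t * γ + C2 * γ / t := by ring
    have h3 : 0 ≤ C2 * γ / t := by positivity
    linarith
  have b6 : C2 * L * (δ * β) ≤ (C1 + C2) * L * (δ * β) := by
    have h3 : 0 ≤ C1 * L * (δ * β) := by positivity
    linarith
  linarith

theorem norm_add_sq_le (p q : V) : ‖p + q‖ ^ 2 ≤ 2 * ‖p‖ ^ 2 + 2 * ‖q‖ ^ 2 := by
  have := norm_sq_le_two (p + q) q
  rwa [add_sub_cancel_right] at this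

theorem int_add_sq_le {D : Set E} (hD : IsCompact D) {p q : E → V} (hp : Continuous p)
    (hq : Continuous q) {a b : ℝ} (h1 : ∫ x in D, ‖p x‖ ^ 2 ≤ a) (h2 : ∫ x in D, ‖q x‖ ^ 2 ≤ b) :
    ∫ x in D, ‖p x + q x‖ ^ 2 ≤ 2 * a + 2 * b := by
  have e := int_mono hD (f := fun x => ‖p x + q x‖ ^ 2)
    (g := fun x => 2 * ‖p x‖ ^ 2 + 2 * ‖q x‖ ^ 2) ((hp.add hq).norm.pow 2)
    ((continuous_const.fun_mul (hp.norm.pow 2)).add (continuous_const.fun_mul (hq.norm.pow 2)))
    fun x _ => norm_add_sq_le _ _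
  rw [int_add hD (continuous_const.fun_mul (hp.norm.fun_pow 2))
    (continuous_const.fun_mul (hq.norm.fun_pow 2)),
    integral_const_mul, integral_const_mul] at e
  linarith

theorem cau_sub {D : Set E} {f : ℕ → E → ℝ} {ρ : E → ℝ} (hf : ∀ j, ContDiff ℝ ∞ (f j))
    (hρ : ContDiff ℝ ∞ ρ) (h : Cau D f) : Cau D fun j x => f j x - ρ x := by
  intro ε hε
  obtain ⟨N, hN⟩ := h ε hε
  refine ⟨N, fun j hj k hk => ?_⟩
  have e : ∀ x, grad (fun x => f j x - ρ x) x - grad (fun x => f k x - ρ x) x =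
      grad (f j) x - grad (f k) x := fun x => by
    rw [grad_sub (hf j) hρ, grad_sub (hf k) hρ]
    abel
  simp only [e]
  exact hN j hj k hk

theorem ctl (hA : SLinA) (_hB : SLinB) (hIA : SIntA) (hIB : SIntB) (hT : STri) : SCTL := by
  intro c p R R₁ K ρ f ηf a ηa d ε hε
  have hD : IsCompact (closedBall p R) := isCompact_closedBall p R
  set D := closedBall p R with hDdef
  have hR : 0 < R := d.pos.trans d.lt
  have hpD : p ∈ D := mem_closedBall_self hR.le
  have hK : 0 ≤ K := (abs_nonneg _).trans (d.appf.bdd 0 p hpD)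
  have hsub : ball p R₁ ⊆ D := (ball_subset_ball d.lt.le).trans ball_subset_closedBall
  have sf := d.appf.smooth
  have sa := d.appa.smooth
  have sρ := d.smooth
  obtain ⟨Kρ, hKρ, h1⟩ := c.T_dominate hD sρ
  obtain ⟨Bρ, hBρ, h2⟩ := exists_bound hD sρ.continuous
  set K' : ℝ := 2 * K + Kρ + Bρ with hK'
  have hK'0 : 0 ≤ K' := by positivity
  set F : ℕ → E → ℝ := fun j x => f j x - ρ x with hF
  set A : ℕ → E → ℝ := fun j x => a j x - ρ x with hAdef
  have sF : ∀ j, ContDiff ℝ ∞ (F j) := fun j => (sf j).sub sρ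
  have sA : ∀ j, ContDiff ℝ ∞ (A j) := fun j => (sa j).sub sρ
  have cauF : Cau D F := cau_sub sf sρ d.cauf
  have cauA : Cau D A := cau_sub sa sρ d.caua
  have posd : ∀ (g η : ℕ → E → ℝ), c.App D g η K → ∀ j, ∀ x ∈ D,
      c.Pos x (c.T (fun x => g j x - ρ x) x + K' • c.Om x) := fun g η hg j x hx => by
    have e := (hg.posK j hx).add (h1 x hx).2
    have e2 : c.T (g j) x + K • c.Om x + (-c.T ρ x + Kρ • c.Om x) =
        c.T (fun x => g j x - ρ x) x + (K + Kρ) • c.Om x := by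
      rw [c.T_sub (hg.smooth j) sρ, add_smul]
      abel
    rw [e2] at e
    exact e.mono (by linarith)
  have bdd : ∀ (g η : ℕ → E → ℝ), c.App D g η K → ∀ j, ∀ x ∈ D, g j x - ρ x ≤ K' :=
    fun g η hg j x hx => by
      have e1 := (le_abs_self _).trans (hg.bdd j x hx)
      have e2 := h2 x hx
      rw [Real.norm_eq_abs] at e2
      have e3 := neg_abs_le (ρ x)
      linarith
  obtain ⟨BF, hBF, h3⟩ := cauF.bdd hD sF
  obtain ⟨BA, hBA, h4⟩ := cauA.bdd hD sA
  obtain ⟨Ba, hBa, h5⟩ := d.caua.bdd hD sa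
  set β : ℝ := 1 + BF + 4 * Ba with hβ
  have hβ1 : 1 ≤ β := by linarith
  have hβ0 : 0 ≤ β := by linarith
  have hββ : β ≤ β ^ 2 := by nlinarith
  obtain ⟨CT, hCT, h6⟩ := hT c p R R₁ K' d.pos d.lt
  set X : ℝ := CT * (1 + BF + BA) with hX
  have hX0 : 0 ≤ X := by positivity
  have tri : ∀ j k, ∫ x in D, c.w (c.al x (grad (F j) x) (grad (A k) x))
      (c.al x (grad (F j) x) (grad (A k) x)) ≤ X := fun j k => by
    refine (h6 (F j) (A k) (sF j) (sA k) (fun x hx => sub_eq_zero.2 (d.outf j x hx))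
      fun x hx => ⟨sub_nonneg.2 (d.gef j x), bdd f ηf d.appf j x hx, sub_nonneg.2 (d.gea k x),
        bdd a ηa d.appa k x hx, posd f ηf d.appf j x hx, posd a ηa d.appa k x hx⟩).trans ?_
    exact mul_le_mul_of_nonneg_left (add_le_add (add_le_add le_rfl (h3 j)) (h4 k)) hCT
  obtain ⟨C1, hC1, m1⟩ := main_bd hA hIB c hD hK'0
  obtain ⟨C2, hC2, m2⟩ := anti_bd hA c hD
  obtain ⟨C3, hC3, m3⟩ := c.n_bd hD
  -- choice of `t`, `γ`, `l`
  set t : ℝ := ε / 4 / (X + 1) with ht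
  have ht0 : 0 < t := by positivity
  have htX : t * X ≤ ε / 4 := by
    rw [ht, div_mul_eq_mul_div, div_le_iff₀ (by positivity)]
    nlinarith
  set γ : ℝ := ε / 4 * t / (C2 + 1) with hγ
  have hγ0 : 0 < γ := by positivity
  have hγt : C2 * γ / t ≤ ε / 4 := by
    rw [div_le_iff₀ ht0, hγ, ← mul_div_assoc, div_le_iff₀ (by positivity)]
    have : 0 < ε / 4 * t := by positivity
    nlinarith
  obtain ⟨l, hl⟩ := d.caua (γ / 4) (by positivity)
  have cl : Continuous fun x => grad (a l) x + grad (a l) x :=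
    (continuous_grad (sa l)).add (continuous_grad (sa l))
  obtain ⟨L, hL, hLb⟩ := exists_bound hD cl
  -- choice of `δ`
  set Q : ℝ := (C1 + C2 * L + C3 * K' + C3) * β with hQ
  have hQ0 : 0 ≤ Q := by positivity
  set δ : ℝ := ε / 2 / (Q + 1) with hδ
  have hδ0 : 0 < δ := by positivity
  have hδQ : δ * Q ≤ ε / 2 := by
    rw [hδ, div_mul_eq_mul_div, div_le_iff₀ (by positivity)]
    nlinarith
  obtain ⟨N1, hN1⟩ := d.caua (δ ^ 2) (by positivity)
  obtain ⟨δ', hδ', N2, hN2⟩ := cauF.ui hD sF (K' ^ 2) (δ ^ 2) (by positivity)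
  obtain ⟨N3, hN3⟩ := l1_cauchy hD (fun j => (sa j).continuous) d.appa.anti d.appa.bdd
    (min (δ ^ 2) δ' / (K' + 1)) (by positivity)
  filter_upwards [eventually_ge_atTop l, eventually_ge_atTop N1, eventually_ge_atTop N2,
    eventually_ge_atTop N3] with j j0 j1 j2 j3
  filter_upwards [eventually_ge_atTop j] with k hk
  set G : E → ℝ := fun x => a j x - a k x with hG
  set S : E → ℝ := fun x => a j x + a k x with hS
  have sG : ContDiff ℝ ∞ G := (sa j).sub (sa k)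
  have sS : ContDiff ℝ ∞ S := (sa j).add (sa k)
  have cG := continuous_grad sG
  have cS := continuous_grad sS
  have cF := continuous_grad (sF j)
  have G0 : ∀ x, x ∉ D → G x = 0 := fun x hx => by
    have hx' : x ∉ ball p R₁ := fun h => hx (hsub h)
    simp only [hG, d.outa j x hx', d.outa k x hx', sub_self]
  have F0 : ∀ x, x ∉ D → F j x = 0 := fun x hx =>
    sub_eq_zero.2 (d.outf j x fun h => hx (hsub h))
  have Gnn : ∀ x ∈ D, 0 ≤ G x := fun x hx => sub_nonneg.2 (anti_of_succ d.appa.anti hx hk)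
  have Gle : ∀ x ∈ D, G x ≤ K' := fun x hx => by
    have e1 := bdd a ηa d.appa j x hx
    have e2 := d.gea k x
    simp only [hG]
    linarith
  have gG : ∀ x, grad G x = grad (a j) x - grad (a k) x := grad_sub (sa j) (sa k)
  have gG' : ∀ x, grad G x = grad (A j) x - grad (A k) x := fun x => by
    rw [gG, hAdef]
    simp only
    rw [grad_sub (sa j) sρ, grad_sub (sa k) sρ]
    abel
  have gS : ∀ x, grad S x = grad (a j) x + grad (a k) x := grad_add (sa j) (sa k)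
  have q1 : ∫ x in D, ‖grad G x‖ ^ 2 ≤ δ ^ 2 := by
    simp only [gG]
    exact hN1 j j1 k (j1.trans hk)
  have q2 : ∫ x in D, G x ^ 2 ≤ min (δ ^ 2) δ' := by
    have e1 : ∫ x in D, G x ^ 2 ≤ ∫ x in D, (K' + 1) * G x :=
      int_mono hD (sG.continuous.pow 2) (continuous_const.fun_mul sG.continuous) fun x hx => by
        have := Gnn x hx
        have := Gle x hx
        nlinarith
    rw [integral_const_mul] at e1
    have e2 := hN3 j j3 k hk
    rw [le_div_iff₀ (by positivity), mul_comm] at e2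
    exact e1.trans e2
  have q3 : ∫ x in D, ‖grad (F j) x‖ ^ 2 ≤ β ^ 2 := (h3 j).trans (by linarith)
  have q4 : ∫ x in D, ‖grad S x‖ ^ 2 ≤ β ^ 2 := by
    simp only [gS]
    exact (int_add_sq_le hD (continuous_grad (sa j)) (continuous_grad (sa k)) (h5 j)
      (h5 k)).trans (by linarith)
  have q5 : ∫ x in D, (G x * ‖grad (F j) x‖) ^ 2 ≤ δ ^ 2 := by
    simp only [mul_pow]
    exact hN2 j j2 (fun x => G x ^ 2) (sG.continuous.pow 2)
      (fun x hx => ⟨sq_nonneg _, pow_le_pow_left₀ (Gnn x hx) (Gle x hx) 2⟩)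
      (q2.trans (min_le_right _ _))
  have q6 : ∫ x in D, ‖grad S x - (grad (a l) x + grad (a l) x)‖ ^ 2 ≤ γ := by
    have e : ∀ x, grad S x - (grad (a l) x + grad (a l) x) =
        (grad (a j) x - grad (a l) x) + (grad (a k) x - grad (a l) x) := fun x => by
      rw [gS]
      abel
    simp only [e]
    exact (int_add_sq_le hD ((continuous_grad (sa j)).sub (continuous_grad (sa l)))
      ((continuous_grad (sa k)).sub (continuous_grad (sa l))) (hl j j0 l le_rfl)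
      (hl k (j0.trans hk) l le_rfl)).trans (by linarith)
  have posS : ∀ x ∈ D, c.Pos x (c.T S x + K' • c.Om x) := fun x hx => by
    have e := (d.appa.posK j hx).add (d.appa.posK k hx)
    have e2 : c.T (a j) x + K • c.Om x + (c.T (a k) x + K • c.Om x) =
        c.T S x + (K + K) • c.Om x := by
      rw [hS, c.T_add (sa j) (sa k), add_smul]
      abel
    rw [e2] at e
    exact e.mono (by linarith)
  have r1 := m1 (F j) G S (sF j) sG sS G0 Gnn (posd f ηf d.appf j) posS δ β hδ0.le hβ1 q1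
    (q2.trans (min_le_left _ _)) q3 q4
  have r2 := m2 (grad (F j)) (grad (A j)) (grad (A k)) (grad S)
    (fun x => grad (a l) x + grad (a l) x) cF (continuous_grad (sA j)) (continuous_grad (sA k))
    cS cl t X γ L δ β ht0 hL hδ0.le hβ0 (tri j j) (tri j k) q6 hLb
    (by simpa only [gG'] using q1) q3
  simp only [← gG'] at r2
  have r3 : |∫ x in D, F j x * c.n x (grad G x) (grad S x)| ≤ (C3 * K') * (δ * β) := by
    refine cs_bd hD ((sF j).continuous.fun_mul (c.continuous_n cG cS)) cG.norm cS.norm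
      (by positivity) hδ0.le hβ0 (fun x hx => ?_) q1 q4
    rw [abs_mul, abs_of_nonneg (sub_nonneg.2 (d.gef j x))]
    calc (f j x - ρ x) * |c.n x (grad G x) (grad S x)|
        ≤ K' * (C3 * (‖grad G x‖ * ‖grad S x‖)) :=
          mul_le_mul (bdd f ηf d.appf j x hx) (m3 x hx _ _) (abs_nonneg _) hK'0
      _ = C3 * K' * (‖grad G x‖ * ‖grad S x‖) := by ring
  have r4 : |∫ x in D, G x * c.n x (grad (F j) x) (grad S x)| ≤ C3 * (δ * β) := by
    refine cs_bd hD (u := fun x => G x * ‖grad (F j) x‖) (sG.continuous.fun_mul (c.continuous_n cF cS))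
      (sG.continuous.fun_mul cF.norm) cS.norm hC3 hδ0.le hβ0 (fun x hx => ?_) q5 q4
    rw [abs_mul, abs_of_nonneg (Gnn x hx)]
    calc G x * |c.n x (grad (F j) x) (grad S x)|
        ≤ G x * (C3 * (‖grad (F j) x‖ * ‖grad S x‖)) :=
          mul_le_mul_of_nonneg_left (m3 x hx _ _) (Gnn x hx)
      _ = C3 * (G x * ‖grad (F j) x‖ * ‖grad S x‖) := by ring
  have r5 := hIA.swap c D hD (F j) G S (sF j) sG sS F0 G0
  have r6 := c.N_sq_sub hD (sF j).continuous (sa j) (sa k)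
  have r7 := (le_abs_self _).trans r3
  have r8 := (abs_le.1 r4).1
  have r9 : δ * Q = C1 * (δ * β) + C2 * L * (δ * β) + C3 * K' * (δ * β) + C3 * (δ * β) := by
    rw [hQ]
    ring
  change -ε ≤ c.N D (F j) (a j) (a j) - c.N D (F j) (a k) (a k)
  rw [r6]
  change -ε ≤ c.N D (F j) G S
  linarith

end Pool.Agent.MP_13e7a1_an.H65
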